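import Pool.Agent.Run7.h604.HK.Gap

/-!
# Zero in the spectrum of aspherical complexes and the valence

A class of finite aspherical complexes closed under products and containing the circle, or more
generally a class of cocompact complexes (`Cplx`, the cellular chain complexes of the universal
covers), is considered. The bottom of the spectrum of the Laplacian on the square-summable chains is
trivially at most the number of faces and cofaces of a cell (if the incidence numbers are `± 1`). We
show that any uniform improvement of this bound by a factor `o (1)`, in infinitely many dimensions,
implies the conjecture: zero is in the spectrum for all members of positive dimension if and only if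
for each `ε > 0` there are arbitrarily large `n` such that the bottom of the spectrum is at most `ε`
times the largest number of faces and cofaces of a cell, for all members of dimension `n`.

For a finite aspherical complex `M` zero is in the spectrum if and only if `H_i (M; C_r^* (π)) ≠ 0`
for some `i`.

Outline. The bottom of the spectrum is additive under products, as the mixed terms of the Laplacian
of a product cancel, and the valence is subadditive.
-/

set_option autoImplicit false

namespace Pool.Agent.Results.MP_9f173d_gt.BottomOfSpectrumValence

open Pool.Agent.Run7.h604.HK

theorem result (𝒞 : Cplx → Prop) (hp : ∀ A B, 𝒞 A → 𝒞 B → 𝒞 (A.prod B))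
    (hT : ∃ T, 𝒞 T ∧ T.dim = 1) :
    (∀ A, 𝒞 A → A.dim ≠ 0 → ∀ c, A.BoundedBelow c → c ≤ 0) ↔
      ∀ ε : ℝ, 0 < ε → ∀ N : ℕ, ∃ n ≥ N, ∀ A, 𝒞 A → A.dim = n → ∀ c, A.BoundedBelow c →
        c ≤ ε * A.valence :=
  Cplx.gap_law_iff 𝒞 hp hT (fun A => (A.valence : ℝ))
    (fun A B _ _ => by exact_mod_cast Cplx.valence_prod A B) (fun A _ => Nat.cast_nonneg _)

end Pool.Agent.Results.MP_9f173d_gt.BottomOfSpectrumValence
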