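import Pool.Agent.Run7.h854.FT.Face
import Pool.Agent.Run7.h854.ZD.Res
import Pool.Agent.Q169.FT.PD
import Pool.Agent.Q169.PT.TF
import Pool.Agent.Q111.FT.ConvB
import Pool.Agent.Q111.FT.Good
import Pool.Agent.Q111.FT.Gap
import Pool.Agent.Q146.FT.Amen
import Pool.Agent.Q241.ZD.Ltwo

/-!
# Zero in the spectrum and folding

Let `U` be the set of the cells of the universal cover of a finite aspherical complex `M` with
fundamental group `N` (an acyclic complex with a free action of `N` with finitely many orbits of
cells). We say that a subcomplex of `U` is inherited if it is obtained from `U` by finitely many of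
the following steps.

* If a finite reflection group `K` acts on an inherited subcomplex `B` (no compatibility with `N` is
  required) with fundamental chamber `C`, then the intersections of `C` with any set of the walls
  of `C` are inherited, for instance `C` and the fixed point set of `K` in `B`.
* If there is a bounded chain retraction from an inherited subcomplex `B` to a subcomplex `A` of
  `B`, then `A` is inherited.
* If `A₁`, `A₂` and `A₁ ∪ A₂` are inherited, then `A₁ ∩ A₂` is inherited.

Suppose that some inherited subcomplex `V` is acyclic and has a free action of some group `L` with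
finitely many orbits of cells (for instance `L` is the stabiliser of `V` in `N`, or in any other
group). If the conclusion of the zero-in-the-spectrum conjecture holds for `L`, then it holds for
`N`. It holds if the compactly supported cohomology `H_c^d(V; ℤ)` is infinite cyclic for some
`d ≤ 3`, for instance if `V` is a contractible manifold of dimension at most three.

The reason: if all `H_i(M; C*_r(N))` vanish, then the complex of the square summable cochains of `U`
is exact; this exactness is a property of the complex `U` without its group action, and it passes
to inherited subcomplexes (square summable cochains of the chamber which vanish on some of the walls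
are unfolded to the whole complex, and primitives are folded back with signs). If `V` has a free
cocompact action of `L`, the exactness of the complex of square summable cochains implies, by the
spectral gap of the Laplacian and the spectral permanence of `C*_r(L)`, that all `H_i(L; C*_r(L))`
vanish.
-/

set_option autoImplicit false

namespace Pool.Agent.Results.MP_9f173d_gt.Folding

open Pool.Agent.H919R4.ZS (FinRes toRed)
open Pool.Agent.TH38.CX (AcyclicGComplex)
open Pool.Agent.Q169.FT (Inh HcZ)

/-- Let `U` be an acyclic complex with a free action of `N` with finitely many orbits of cells, and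
`V` an acyclic complex with a free action of `L` with finitely many orbits of cells, which is
isomorphic by `ι` to an inherited subcomplex of `U`. If some `H_i(L; C*_r(L))` is not zero, or if
`H_c^d(V; ℤ)` is infinite cyclic for some `d ≤ 3`, then for every finite free resolution `X` of the
trivial `ℤ[N]`-module `ℤ` some homology group of `X` with coefficients in `C*_r(N)` is not zero. -/
theorem result {N : Type} [Group N] (U : AcyclicGComplex N)
    (hU : ∀ i (n : N) (e : U.E i), n • e = e → n = 1)
    (c : ℕ → ℕ) (rep : ∀ i, Fin (c i) → U.E i)
    (hrep : ∀ i (e : U.E i), ∃! a, e ∈ MulAction.orbit N (rep i a))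
    {L : Type} [Group L] (V : AcyclicGComplex L)
    (hV : ∀ i (n : L) (e : V.E i), n • e = e → n = 1)
    (c' : ℕ → ℕ) (rep' : ∀ i, Fin (c' i) → V.E i)
    (hrep' : ∀ i (e : V.E i), ∃! a, e ∈ MulAction.orbit L (rep' i a))
    (ι : ∀ i, V.E i → U.E i) (hι : ∀ i, Function.Injective (ι i))
    (hbd : ∀ i (e : V.E (i + 1)), U.bd i (Finsupp.single (ι (i + 1) e) 1) =
      (V.bd i (Finsupp.single e 1)).mapDomain (ι i))
    (hinh : Inh (fun i (e : U.E (i + 1)) => U.bd i (Finsupp.single e 1))
      (fun i => Set.range (ι i)))
    (h : (∃ (Y : FinRes L) (i : ℕ), Nontrivial (Y.homology (toRed L) i)) ∨ ∃ d ≤ 3, HcZ V d)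
    (X : FinRes N) : ∃ i, Nontrivial (X.homology (toRed N) i) := by
  obtain ⟨Y, -⟩ := Run7.h854.ZD.t_RES L V hV c' rep' hrep'
  exact Pool.Agent.Q169.FT.final' (Pool.Agent.Q241.ZD.ltwo Run7.h854.ZD.t_RES)
    Pool.Agent.Q111.FT.good Run7.h854.FT.face Pool.Agent.Q111.FT.trans
    (Pool.Agent.Q111.FT.conv Run7.h854.ZD.t_RES Pool.Agent.Q111.FT.gap Pool.Agent.Q111.FT.neu)
    (Pool.Agent.Q169.FT.PD.pda Run7.h854.ZD.t_RES) (Pool.Agent.Q169.FT.PD.pdb Run7.h854.ZD.t_RES)
    Pool.Agent.Q146.FT.amen Run7.h854.ZD.t_RES U hU c rep hrep V hV
    (fun g hg => Pool.Agent.Q169.PT.TFr.tf L Y g hg) c' rep' hrep' ι hι hbd hinh h X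

end Pool.Agent.Results.MP_9f173d_gt.Folding
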