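import Pool.Agent.Run7.h854.ZD.Fin

/-!
# Zero in the spectrum for Davis' reflection group constructions

Let `(W, S)` be a Coxeter group and `H` a group which permutes `S` and acts accordingly on `W`. Let
`Y` be a finite-dimensional complex with a free action of `H` with finitely many orbits of cells, and
with mirrors `Y_s`, `s ∈ S`, which are permuted by `H`, such that the reflection construction
`𝒰(W, Y)` is acyclic and has finite local groups `W_T`. A torsion-free subgroup `N` of finite index of
`W ⋊ H` acts freely and cocompactly on `𝒰(W, Y)`. The quotients `𝒰(W, Y) / N` are the aspherical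
complexes and closed manifolds given by Davis' reflection group trick: `Y` is the universal cover of
a compact aspherical manifold with boundary `K`, `H = π₁(K)`, and the mirrors are the lifts of the
dual cells of a flag triangulation of the boundary of `K`.

The conclusion of the zero-in-the-spectrum conjecture holds for `N` if `χ(Y / H) ≠ 0`, or if
`χ(Y / H, ∂Y / H) ≠ 0`, where `∂Y` is the union of the mirrors, or if the weighted Euler
characteristic `∑ (-1)^dim(e) / W_e(q)`, the sum over the cells `e` of `Y / H`, with the growth sum
`W_e(q) = ∑_(w ∈ W_e) q(w)` of the special subgroup `W_e` of the mirrors containing `e`, is not zero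
for some `H`-invariant weight function `q` (for instance `q(w) = r ^ ℓ(w)` with `r > 0`). For `q = 1`
this is the (rational) Euler characteristic of `N` up to the index, and the statement is classical;
all other values of `q` are not related to the Euler characteristic or other `ℓ²`-Betti numbers of
`N`. No assumption is made on `H`: for instance `H` need not embed coarsely in a Hilbert space.

Proof. If all `H_i(N; C*_r(N))` vanish, then the complex of the square summable cochains of
`𝒰(W, Y)` is exact. It is isomorphic to a subcomplex `M(1)` of `⊕ ℓ²(W ⋊ H)`, which is the member
`q = 1` of a continuous family `M(q)` of subcomplexes (weighted `ℓ²`-cochains, modules over the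
Hecke algebra with parameter `q`) of one and the same complex of Hilbert spaces. A spectral gap is
stable under small deformations, so `M(q)` is exact for `q` near `1`, hence its Euler
characteristic with respect to the trace of the Hecke-von Neumann algebra, which is the weighted
Euler characteristic, vanishes for `q` near `1`. It is an analytic function of `q`, so it vanishes
identically.
-/

set_option autoImplicit false

namespace Pool.Agent.Results.MP_9f173d_gt.HeckeDeformation

open Pool.Agent.H919R4.ZS (FinRes toRed)
open Pool.Agent.Q169.ZD (Mirrored IsAcyclic IsWeight par)

open scoped Classical in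
/-- Let `(W, S)` be a Coxeter system, `H` a group acting on the index set `B` of `S` and,
compatibly, on `W`; `Y` the cells of a complex with mirrors and a free action of `H` with finitely
many orbits of cells (`Mirrored`), such that the reflection construction `𝒰(W, Y)` is acyclic and the
special subgroups `W_T` generated by the reflections in the mirrors containing a cell are finite.
Let `N` be a group which embeds in `W ⋊ H` with finite index, with a finite free resolution `X` of
the trivial `ℤ[N]`-module `ℤ`. If the Euler characteristic of `Y / H`, or that of `Y / H` relative to
the union of the mirrors, or the weighted Euler characteristic for some `H`-invariant weight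
function `q` is not zero, then the homology of `X` with coefficients in `C*_r(N)` is not zero in
some degree. -/
theorem result {B : Type} {M : CoxeterMatrix B} {W : Type} [Group W] (cs : CoxeterSystem M W)
    {H : Type} [Group H] [MulAction H B] (φ : H →* MulAut W)
    (hφ : ∀ h b, φ h (cs.simple b) = cs.simple (h • b))
    (Y : Mirrored H B) (hY : IsAcyclic cs Y)
    (hfin : ∀ i (e : Y.E i), ((par cs (Y.mir i e) : Subgroup W) : Set W).Finite)
    {N : Type} [Group N] (f : N →* W ⋊[φ] H) (hf : Function.Injective f)
    (hfi : f.range.FiniteIndex) (X : FinRes N)
    (h : (∑ i ∈ Finset.range (Y.len + 1), (-1 : ℝ) ^ i * Y.c i ≠ 0) ∨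
      (∑ i ∈ Finset.range (Y.len + 1), (-1 : ℝ) ^ i *
        (Finset.univ.filter fun a : Fin (Y.c i) => Y.mir i (Y.rep i a) = ∅).card ≠ 0) ∨
      ∃ q : W → ℝ, IsWeight cs q ∧ (∀ h w, q (φ h w) = q w) ∧
        ∑ i ∈ Finset.range (Y.len + 1), ∑ a : Fin (Y.c i),
          (-1 : ℝ) ^ i / (∑ᶠ w ∈ par cs (Y.mir i (Y.rep i a)), q w) ≠ 0) :
    ∃ i, Nontrivial (X.homology (toRed N) i) := by
  by_contra hcon
  push Not at hcon
  obtain ⟨h1, h2, h3⟩ := Run7.h854.ZD.main cs φ hφ Y hY hfin f hf hfi X
    (fun i => not_nontrivial_iff_subsingleton.1 (by simpa using hcon i))
  rcases h with h | h | ⟨q, hq, hi, h⟩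
  · exact h h2
  · exact h h3
  · exact h (h1 q hq hi)

end Pool.Agent.Results.MP_9f173d_gt.HeckeDeformation
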