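import Pool.Agent.Run7.h31.Inv.Final

/-!
Zero in the spectrum for finite aspherical complexes `M` whose universal cover has a symmetry of
order two with a big centraliser.

`X : FinRes G` is the cellular chain complex of the universal cover of a finite aspherical complex
`M` with fundamental group `G` (`Pool.Agent.H919R4.ZS.Defs`), `X.len` is the dimension of `M` and
`X.homology (toRed G) i` is `H_i(M; C*_r(G))`. The cells of the universal cover, incidence
numbers and cellular automorphisms are defined in `Pool.Agent.R778.ZSDefs`. The automorphism `φ`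
need not commute with or normalise the group of deck transformations, and neither need `Z`.

Example (not formalised here). Let `Γ` be a discrete group which acts cellularly on the universal
cover, with `G` in `Γ` acting by deck transformations, let `s` in `Γ` be of order two, let `Z` be
the centraliser of `s` in `G`, and let `Γ` act by affine isometries on a Hilbert space `H` such
that every ball of `H` is met by only finitely many of the points `h · 0`, `h` in the conjugacy
class of `s`. The orbit map of `0` gives a map `f` as in the theorem, and the sum in the theorem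
is the Lefschetz number of `s` on the quotient of its fixed point set by `Z`, so that the
theorem applies for instance if the fixed point set is contractible, `s` preserves the
orientations of the cells it fixes, and the Euler characteristic of `Z` is not zero. The case in
which `Z` is trivial is that of only finitely many cells `σ` with `f(σ)` near `f(φ(σ))`.
-/

set_option autoImplicit false

namespace Pool.Agent.Results.MP_9f173d_gt.InfiniteCentralizer

open Pool.Agent.H919R4.ZS (FinRes toRed)
open Pool.Agent.R778.ZS (Cell CellAut inc dim)

/-- Let `φ` be a cellular automorphism of the universal cover of `M`. Let `Z` be a group which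
acts freely on the set of its cells, preserving the dimensions and the incidence numbers and
commuting with `φ`. Let `f` be a Lipschitz map from the set of cells to a Hilbert space `H` (the
values at incident cells have distance at most `C`), which is equivariant for an affine isometric
action of `Z` on `H`, with `f(φ(φ(σ))) = f(σ)` (as holds if `φ` has order two), such that for
every `R` the cells `σ` with `‖f(σ) - f(φ(σ))‖ ≤ R` lie in finitely many `Z`-orbits. Let `S` be a
set of representatives of the `Z`-orbits of cells with `φ(σ) = σ`. If
`∑ (-1)^(dim σ) * sign σ`, the sum over `S`, is not zero, then `H_i(M; C*_r(G)) ≠ 0` for some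
`i ≤ dim M`. -/
theorem result (G : Type) [Group G] (X : FinRes G) (φ : CellAut X)
    (Z : Type) [Group Z] [MulAction Z (Cell X)]
    (hfree : ∀ (z : Z) (σ : Cell X), z • σ = σ → z = 1)
    (hinc : ∀ (z : Z) (σ ρ : Cell X), inc X (z • σ) (z • ρ) = inc X σ ρ)
    (hdim : ∀ (z : Z) (σ : Cell X), dim (z • σ) = dim σ)
    (hperm : ∀ (z : Z) (σ : Cell X), φ.perm (z • σ) = z • φ.perm σ)
    (hsign : ∀ (z : Z) (σ : Cell X), φ.sign (z • σ) = φ.sign σ)
    (H : Type) [NormedAddCommGroup H] [InnerProductSpace ℝ H]
    (π : Z →* (H ≃ₗᵢ[ℝ] H)) (β : Z → H) (f : Cell X → H)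
    (hf : ∀ (z : Z) (σ : Cell X), f (z • σ) = π z (f σ) + β z)
    (hinv : ∀ σ, f (φ.perm (φ.perm σ)) = f σ)
    (C : ℝ) (hC : ∀ σ ρ, inc X σ ρ ≠ 0 → ‖f σ - f ρ‖ ≤ C)
    (hp : ∀ R : ℝ, ∃ T : Finset (Cell X), ∀ σ, ‖f σ - f (φ.perm σ)‖ ≤ R → ∃ z : Z, z • σ ∈ T)
    (S : Finset (Cell X)) (hS : ∀ σ ∈ S, φ.perm σ = σ)
    (hS' : ∀ σ, φ.perm σ = σ → ∃! ρ, ρ ∈ S ∧ ∃ z : Z, z • ρ = σ)
    (hL : ∑ σ ∈ S, (-1 : ℤ) ^ dim σ * (φ.sign σ : ℤ) ≠ 0) :
    ∃ i ≤ X.len, Nontrivial (X.homology (toRed G) i) :=
  Run7.h31.Inv.main φ Z hfree hinc hdim hperm hsign H π β f hf hinv C hC hp S hS hS' hL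

end Pool.Agent.Results.MP_9f173d_gt.InfiniteCentralizer
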